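import Pool.Agent.Q149.WC.Pow

/-!
# Navarro's blockwise conjecture, all primes: approximate equality on one sequence of scales decides

Let `p` be any prime (`p = 2` included). Navarro's equality holds for all invariant blocks of all pairs
`G ⊴ Γ`, `Γ/G` a `p`-group, if and only if for every `ε > 0` there are arbitrarily large `x` such that
the two sides agree up to the factor `x ^ ε` for the groups `Γ` of order at most `x`. It is enough to
know this for the blocks of the groups `H` (`Γ = G = H`) without normal subgroups of index `p` and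
without nontrivial normal `p`-subgroups. So a single failure of the equality forces, for some `δ > 0`
and ALL large `x`, blocks `B` of such groups of order at most `x` whose numbers of simple modules and
of weights differ by a factor greater than `x ^ δ`. For the blocks of all groups of a class closed
under `G ↦ G × G` each of the two inequalities between these numbers has the same property.

Proof. For central elements `z` of `F[G]` and `w` of `F[H]` the number of the simple modules on which
`z ⊗ w` does not act as zero is the product of the numbers for `z` and `w`, and the same holds for the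
number of the weights whose blocks do not vanish at `z ⊗ w`. For every block `B` there is a `z` for
which these are the numbers for `B`. In the direct powers of `G` with exponent `2 ^ j` they are raised
to the same power as the order of the group.
-/

set_option autoImplicit false

open scoped Classical

namespace Pool.Agent.Results.MP_0c8ca5_al.AllScalesOrNone

open Pool.Agent.Y63.NV
open Pool.Agent.Y63.AWC (pSubgroupSetoid)

/-- The right side of Navarro's equality for the block `B` of `G`: the sum over the `Γ`-classes of the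
set `Θ_B` of the `p`-subgroups `Q` of `Γ` with `G Q = Γ` such that `Q ∩ G` is contained in a defect
group of `B`, of the number of `p`-defect zero characters of `N_Γ(Q)/Q` over `B`. -/
noncomputable def thetaSum (p : ℕ) {F : Type} [Field F] (red : integralClosure ℤ ℂ →+* F) {Γ : Type}
    [Group Γ] (G : Subgroup Γ) (B : (G → F) → F) : ℕ :=
  ∑ᶠ c : Quotient (pSubgroupSetoid p Γ),
    if G ⊔ c.out.1 = ⊤ ∧ InDefect p G B c.out.1 then numDz p red G c.out.1 B else 0

/-- The number `w(B)` of the classes of weights of the block `B`. -/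
noncomputable def numWeights (p : ℕ) {F : Type} [Field F] (red : integralClosure ℤ ℂ →+* F)
    {H : Type} [Group H] (B : (H → F) → F) : ℕ :=
  ∑ᶠ c : Quotient (pSubgroupSetoid p H), numWtBlock p red c.out.1 B

/-- The relation `R |Γ| x y` holds for the two sides `x = |IBr_Γ(B)|` and `y` of Navarro's equality
for all `Γ`-invariant blocks `B` of all normal subgroups `G` of finite groups `Γ` such that `G`
contains a normal subgroup `N` of `Γ` in the class `X` for which `Γ/N` is a `p`-group. -/
def ForPairs (p : ℕ) {F : Type} [Field F] (red : integralClosure ℤ ℂ →+* F)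
    (X : ∀ (H : Type) [Group H], Prop) (R : ℕ → ℕ → ℕ → Prop) : Prop :=
  ∀ (Γ : Type) [Group Γ] [Finite Γ] (N G : Subgroup Γ) [N.Normal] [G.Normal], N ≤ G → X N →
    IsPGroup p (Γ ⧸ N) → ∀ B : (G → F) → F, IsBlock B → IsInvBlock G B →
      R (Nat.card Γ) (numIBr G B) (thetaSum p red G B)

/-- The relation `R |H| l(B) w(B)` holds for all blocks `B` of all finite groups `H` in the class
`Y`. -/
def ForBlocks (p : ℕ) {F : Type} [Field F] (red : integralClosure ℤ ℂ →+* F)
    (Y : ∀ (H : Type) [Group H], Prop) (R : ℕ → ℕ → ℕ → Prop) : Prop :=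
  ∀ (H : Type) [Group H] [Finite H], Y H → ∀ B : (H → F) → F, IsBlock B →
    R (Nat.card H) (numIrrBlock B) (numWeights p red B)

/-- The members of `X` without normal subgroups of index `p` and without nontrivial normal
`p`-subgroups. -/
def Red (p : ℕ) (X : ∀ (H : Type) [Group H], Prop) (H : Type) [Group H] : Prop :=
  X H ∧ Reduced p H

/-- If `n ≤ x` then `a ≤ x ^ ε b`. -/
def Le (x ε : ℝ) (n a b : ℕ) : Prop := (n : ℝ) ≤ x → (a : ℝ) ≤ x ^ ε * b

/-- For every `ε > 0` there are arbitrarily large `x` with `P x ε`. -/
def AtScales (P : ℝ → ℝ → Prop) : Prop := ∀ ε : ℝ, 0 < ε → ∀ x₀ : ℝ, ∃ x : ℝ, x₀ ≤ x ∧ P x ε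

theorem le_self {x ε : ℝ} (hx : 1 ≤ x) (hε : 0 < ε) {n a b : ℕ} (h : a ≤ b) : Le x ε n a b := by
  intro _
  have h1 : (1 : ℝ) ≤ x ^ ε := Real.one_le_rpow hx hε.le
  have h2 : (a : ℝ) ≤ b := by exact_mod_cast h
  calc (a : ℝ) ≤ b := h2
    _ = 1 * b := (one_mul _).symm
    _ ≤ x ^ ε * b := mul_le_mul_of_nonneg_right h1 (Nat.cast_nonneg _)

section

variable {p : ℕ} [hp : Fact p.Prime] {F : Type} [Field F] [IsAlgClosed F] [CharP F p]
  (red : integralClosure ℤ ℂ →+* F)

theorem thetaSum_top (H : Type) [Group H] [Finite H] (B : (H → F) → F) (hB : IsBlock B) :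
    thetaSum p red (⊤ : Subgroup H) (up B) = numWeights p red B := by
  refine finsum_congr fun c => ?_
  have h0 : numDz p red (⊤ : Subgroup H) c.out.1 (up B) = numWtBlock p red c.out.1 B :=
    numDz_eq p red c.out.1 (up B)
  by_cases h2 : InDefect p (⊤ : Subgroup H) (up B) c.out.1
  · rw [if_pos ⟨top_sup_eq _, h2⟩, h0]
  · rw [if_neg (fun h => h2 h.2), ← h0]
    by_contra h3
    exact h2 (wdef' p F red H ⊤ (up B) (up_block hB) (up_inv B) c.out.1 c.out.2
      (fun h => h3 h.symm))

theorem blocks_of_pairs (X : ∀ (H : Type) [Group H], Prop) (hX : Closed p X)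
    {R : ℕ → ℕ → ℕ → Prop} (h : ForPairs p red X R) : ForBlocks p red (Red p X) R := by
  intro H _ _ hH B hB
  have h1 := h H ⊤ ⊤ le_rfl (hX.iso _ _ hH.1 ⟨Subgroup.topEquiv.symm⟩) (pgroup_top p H) (up B)
    (up_block hB) (up_inv B)
  rw [thetaSum_top red H B hB, numIBr_eq] at h1
  exact h1

theorem pairs_of_bawc (X : ∀ (H : Type) [Group H], Prop) (hX : Closed p X)
    (h : ForBlocks p red (Red p X) (fun _ x y => x = y)) :
    ForPairs p red X (fun _ x y => x = y) := by
  have h1 : ∀ (H : Type) [Group H] [Finite H], X H → Reduced p H →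
      NavarroTheta p red (⊤ : Subgroup H) := by
    intro H _ _ hH hR
    rw [theta_iff, ← bawc_iff]
    exact h H ⟨hH, hR⟩
  intro Γ _ _ N G _ _ hNG hN hp B hB hI
  exact (block_strong red X hX).1 h1 Γ N G hNG hN hp B hB hI

/-- the first inequality for a class closed under direct squares -/
theorem irr_scales (Y : ∀ (H : Type) [Group H], Prop)
    (hY : ∀ (H : Type) [Group H] [Finite H], Y H → Y (H × H))
    (h : AtScales fun x ε => ForBlocks p red Y (Le x ε)) :
    ForBlocks p red Y (fun _ x y => x ≤ y) := by
  intro H _ _ hH B hB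
  refine Pool.Agent.Q149.WC.irr_le red H (fun ε hε x₀ => ?_) B hB
  obtain ⟨x, hx1, hx2⟩ := h ε hε x₀
  refine ⟨x, hx1, fun j hj B hB => ?_⟩
  have h3 : Y (Pool.Agent.Q149.WC.Pw j H) :=
    Pool.Agent.Q149.WC.closed_Pw (fun (G : Type) (i : Group G) => @Y G i)
      (fun G _ _ hG => hY G hG) j H hH
  exact hx2 _ h3 B hB hj

/-- the second inequality for a class closed under direct squares -/
theorem wts_scales (Y : ∀ (H : Type) [Group H], Prop)
    (hY : ∀ (H : Type) [Group H] [Finite H], Y H → Y (H × H))
    (h : AtScales fun x ε => ForBlocks p red Y (fun n a b => Le x ε n b a)) :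
    ForBlocks p red Y (fun _ x y => y ≤ x) := by
  intro H _ _ hH B hB
  refine Pool.Agent.Q149.WC.wts_le red H (fun ε hε x₀ => ?_) B hB
  obtain ⟨x, hx1, hx2⟩ := h ε hε x₀
  refine ⟨x, hx1, fun j hj B hB => ?_⟩
  have h3 : Y (Pool.Agent.Q149.WC.Pw j H) :=
    Pool.Agent.Q149.WC.closed_Pw (fun (G : Type) (i : Group G) => @Y G i)
      (fun G _ _ hG => hY G hG) j H hH
  exact hx2 _ h3 B hB hj

end

/-- **Navarro's blockwise conjecture, all primes: one sequence of scales decides.**
(1) Let `X` be a class of groups closed under isomorphisms, subgroups, quotients by normal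
`p`-subgroups and direct squares. Equivalent: Navarro's equality for all pairs and blocks as in
`ForPairs`; for every `ε > 0` there are arbitrarily large `x` such that for all these pairs with
`|Γ| ≤ x` and blocks each side is at most `x ^ ε` times the other side; the same for `l(B)` and `w(B)`
for all blocks `B` of the groups `H` in `X` with `|H| ≤ x` without normal subgroups of index `p` and
without nontrivial normal `p`-subgroups.
(2) If Navarro's equality fails for some pair and block as in (1), then there are `δ > 0` and `x₀` such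
that for all `x ≥ x₀` one of the groups `H` in (1) with `|H| ≤ x` has a block `B` for which
`l(B) > x ^ δ w(B)` or `w(B) > x ^ δ l(B)`.
(3) Let `Y` be a class of groups closed under direct squares. Then `l(B) ≤ w(B)` for all blocks `B` of
the finite groups in `Y` if and only if for every `ε > 0` there are arbitrarily large `x` with
`l(B) ≤ x ^ ε w(B)` for all blocks `B` of the groups in `Y` of order at most `x`; and the same with `l`
and `w` exchanged. -/
theorem result (p : ℕ) [Fact p.Prime] (F : Type) [Field F] [IsAlgClosed F] [CharP F p]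
    (red : integralClosure ℤ ℂ →+* F) :
    (∀ X : ∀ (H : Type) [Group H], Prop, Closed p X →
      (∀ (H : Type) [Group H] [Finite H], X H → X (H × H)) →
      [ForPairs p red X (fun _ x y => x = y),
        AtScales fun x ε => ForPairs p red X (fun n a b => Le x ε n a b ∧ Le x ε n b a),
        AtScales fun x ε =>
          ForBlocks p red (Red p X) (fun n a b => Le x ε n a b ∧ Le x ε n b a)].TFAE) ∧
    (∀ X : ∀ (H : Type) [Group H], Prop, Closed p X →
      (∀ (H : Type) [Group H] [Finite H], X H → X (H × H)) →
      ¬ ForPairs p red X (fun _ x y => x = y) →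
      ∃ δ : ℝ, 0 < δ ∧ ∃ x₀ : ℝ, ∀ x : ℝ, x₀ ≤ x →
        ∃ (H : Type) (_ : Group H) (_ : Finite H) (B : (H → F) → F), X H ∧ Reduced p H ∧
          (Nat.card H : ℝ) ≤ x ∧ IsBlock B ∧
          (x ^ δ * numWeights p red B < numIrrBlock B ∨
            x ^ δ * numIrrBlock B < numWeights p red B)) ∧
    (∀ Y : ∀ (H : Type) [Group H], Prop,
      (∀ (H : Type) [Group H] [Finite H], Y H → Y (H × H)) →
      (ForBlocks p red Y (fun _ x y => x ≤ y) ↔
        AtScales fun x ε => ForBlocks p red Y (Le x ε)) ∧
      (ForBlocks p red Y (fun _ x y => y ≤ x) ↔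
        AtScales fun x ε => ForBlocks p red Y (fun n a b => Le x ε n b a))) := by
  have part1 : ∀ X : ∀ (H : Type) [Group H], Prop, Closed p X →
      (∀ (H : Type) [Group H] [Finite H], X H → X (H × H)) →
      [ForPairs p red X (fun _ x y => x = y),
        AtScales fun x ε => ForPairs p red X (fun n a b => Le x ε n a b ∧ Le x ε n b a),
        AtScales fun x ε =>
          ForBlocks p red (Red p X) (fun n a b => Le x ε n a b ∧ Le x ε n b a)].TFAE := by
    intro X hX hS
    have hRS : ∀ (H : Type) [Group H] [Finite H], Red p X H → Red p X (H × H) :=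
      fun H _ _ hH => ⟨hS H hH.1, Pool.Agent.Q149.WC.reduced_prod hH.2⟩
    tfae_have 1 → 2 := by
      intro h ε hε x₀
      refine ⟨max x₀ 1, le_max_left _ _, fun Γ _ _ N G _ _ h1 h2 h3 B hB hI => ?_⟩
      have h4 := h Γ N G h1 h2 h3 B hB hI
      exact ⟨le_self (le_max_right _ _) hε h4.le, le_self (le_max_right _ _) hε h4.ge⟩
    tfae_have 2 → 3 := by
      intro h ε hε x₀
      obtain ⟨x, hx1, hx2⟩ := h ε hε x₀
      exact ⟨x, hx1, blocks_of_pairs red X hX hx2⟩
    tfae_have 3 → 1 := by
      intro h
      refine pairs_of_bawc red X hX fun H _ _ hH B hB => ?_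
      apply le_antisymm
      · refine irr_scales red (Red p X) hRS (fun ε hε x₀ => ?_) H hH B hB
        obtain ⟨x, hx1, hx2⟩ := h ε hε x₀
        exact ⟨x, hx1, fun H _ _ hH B hB => (hx2 H hH B hB).1⟩
      · refine wts_scales red (Red p X) hRS (fun ε hε x₀ => ?_) H hH B hB
        obtain ⟨x, hx1, hx2⟩ := h ε hε x₀
        exact ⟨x, hx1, fun H _ _ hH B hB => (hx2 H hH B hB).2⟩
    tfae_finish
  refine ⟨part1, ?_, ?_⟩
  · intro X hX hS hne
    have h1 := (part1 X hX hS).out 0 2
    rw [h1] at hne
    unfold AtScales at hne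
    push Not at hne
    obtain ⟨δ, hδ, x₀, h2⟩ := hne
    refine ⟨δ, hδ, x₀, fun x hx => ?_⟩
    have h3 := h2 x hx
    unfold ForBlocks at h3
    push Not at h3
    obtain ⟨H, _, _, hH, B, hB, h4⟩ := h3
    unfold Le at h4
    by_cases hc : (Nat.card H : ℝ) ≤ x
    · refine ⟨H, inferInstance, inferInstance, B, hH.1, hH.2, hc, hB, ?_⟩
      by_contra hcon
      push Not at hcon
      exact h4 (fun _ => hcon.1) (fun _ => hcon.2)
    · exact (h4 (fun h => absurd h hc) (fun h => absurd h hc)).elim
  · intro Y hY
    refine ⟨⟨fun h ε hε x₀ => ?_, irr_scales red Y hY⟩, ⟨fun h ε hε x₀ => ?_, wts_scales red Y hY⟩⟩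
    · exact ⟨max x₀ 1, le_max_left _ _, fun H _ _ hH B hB =>
        le_self (le_max_right _ _) hε (h H hH B hB)⟩
    · exact ⟨max x₀ 1, le_max_left _ _, fun H _ _ hH B hB =>
        le_self (le_max_right _ _) hε (h H hH B hB)⟩

end Pool.Agent.Results.MP_0c8ca5_al.AllScalesOrNone
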