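import Pool.Agent.Q149.WB.Red

/-!
# Navarro's blockwise conjecture for odd primes: parity or size decides

Navarro's conjecture for the invariant blocks `B` of normal subgroups `G` of finite groups `Γ` with
`Γ/G` a `p`-group, `p` odd: the two sides of the equality are equal for all blocks if they have the
same parity for all blocks, or if they agree up to a factor `K |Γ|_p ^ ε`, for every `ε > 0`. It is
sufficient to know this for the blocks of the groups `H` without normal subgroups of index `p` and
without non-trivial normal `p`-subgroups (`Γ = G = H`), in every class of groups closed under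
isomorphisms, subgroups, quotients by normal `p`-subgroups and wreath products with `C₂`, for
instance the class of all groups, or of the groups without sections isomorphic to a member of a given
set of simple groups of order greater than two.
-/

set_option autoImplicit false

open scoped Classical

namespace Pool.Agent.Results.MP_0c8ca5_al.ParityDecides

open Pool.Agent.Y63.NV
open Pool.Agent.Y63.AWC (pSubgroupSetoid)
open Pool.Agent.Q90.WR (Wr WrN instGroupWrN)

/-- The right side of Navarro's equality for the block `B` of `G`: the sum over the `Γ`-classes of the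
set `Θ_B` of the `p`-subgroups `Q` of `Γ` with `G Q = Γ` such that `Q ∩ G` is contained in a defect
group of `B`, of the number of `p`-defect zero characters of `N_Γ(Q)/Q` over `B`. -/
noncomputable def thetaSum (p : ℕ) {F : Type} [Field F] (red : integralClosure ℤ ℂ →+* F) {Γ : Type}
    [Group Γ] (G : Subgroup Γ) (B : (G → F) → F) : ℕ :=
  ∑ᶠ c : Quotient (pSubgroupSetoid p Γ),
    if G ⊔ c.out.1 = ⊤ ∧ InDefect p G B c.out.1 then numDz p red G c.out.1 B else 0

/-- The `p`-part of the order of `Γ`. -/
noncomputable def pPart (p : ℕ) (Γ : Type) : ℕ := p ^ (Nat.card Γ).factorization p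

/-- The relation `R (|Γ|_p) x y` holds for the two sides `x = |IBr_Γ(B)|` and `y` of Navarro's equality
for all `Γ`-invariant blocks `B` of all normal subgroups `G` of finite groups `Γ` such that `G`
contains a normal subgroup `N` of `Γ` in the class `X` for which `Γ/N` is a `p`-group. -/
def ForPairs (p : ℕ) {F : Type} [Field F] (red : integralClosure ℤ ℂ →+* F)
    (X : ∀ (H : Type) [Group H], Prop) (R : ℕ → ℕ → ℕ → Prop) : Prop :=
  ∀ (Γ : Type) [Group Γ] [Finite Γ] (N G : Subgroup Γ) [N.Normal] [G.Normal], N ≤ G → X N →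
    IsPGroup p (Γ ⧸ N) → ∀ B : (G → F) → F, IsBlock B → IsInvBlock G B →
      R (pPart p Γ) (numIBr G B) (thetaSum p red G B)

/-- The relation `R (|H|_p) l(B) w(B)` holds for the numbers `l(B)` of simple modules and `w(B)` of
classes of weights of all blocks of all finite groups `H` in the class `X` without normal subgroups
of index `p` and without non-trivial normal `p`-subgroups. -/
def ForReduced (p : ℕ) {F : Type} [Field F] (red : integralClosure ℤ ℂ →+* F)
    (X : ∀ (H : Type) [Group H], Prop) (R : ℕ → ℕ → ℕ → Prop) : Prop :=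
  ∀ (H : Type) [Group H] [Finite H], X H → Reduced p H → ∀ B : (H → F) → F, IsBlock B →
    R (pPart p H) (numIrrBlock B)
      (∑ᶠ c : Quotient (pSubgroupSetoid p H), numWtBlock p red c.out.1 B)

/-- The two numbers agree up to the factor `K s ^ ε`. -/
def Near (K ε : ℝ) (s x y : ℕ) : Prop :=
  (x : ℝ) ≤ K * (s : ℝ) ^ ε * y ∧ (y : ℝ) ≤ K * (s : ℝ) ^ ε * x

theorem near_self {p : ℕ} (hp : p.Prime) {ε : ℝ} (hε : 0 < ε) (Γ : Type) (x : ℕ) :
    Near 1 ε (pPart p Γ) x x := by
  have : Fact p.Prime := ⟨hp⟩
  have h := Pool.Agent.Q149.WB.self_le (p := p) Γ hε (le_refl x)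
  exact ⟨h, h⟩

section

variable {p : ℕ} [hp : Fact p.Prime] {F : Type} [Field F] [IsAlgClosed F] [CharP F p]
  (red : integralClosure ℤ ℂ →+* F)

theorem thetaSum_top (H : Type) [Group H] [Finite H] (B : (H → F) → F) (hB : IsBlock B) :
    thetaSum p red (⊤ : Subgroup H) (up B) =
      ∑ᶠ c : Quotient (pSubgroupSetoid p H), numWtBlock p red c.out.1 B := by
  refine finsum_congr fun c => ?_
  have h0 : numDz p red (⊤ : Subgroup H) c.out.1 (up B) = numWtBlock p red c.out.1 B :=
    numDz_eq p red c.out.1 (up B)
  by_cases h2 : InDefect p (⊤ : Subgroup H) (up B) c.out.1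
  · rw [if_pos ⟨top_sup_eq _, h2⟩, h0]
  · rw [if_neg (fun h => h2 h.2), ← h0]
    by_contra h3
    exact h2 (wdef' p F red H ⊤ (up B) (up_block hB) (up_inv B) c.out.1 c.out.2
      (fun h => h3 h.symm))

theorem reduced_of_pairs (X : ∀ (H : Type) [Group H], Prop) (hX : Closed p X)
    {R : ℕ → ℕ → ℕ → Prop} (h : ForPairs p red X R) : ForReduced p red X R := by
  intro H _ _ hH _ B hB
  have h1 := h H ⊤ ⊤ le_rfl (hX.iso _ _ hH ⟨Subgroup.topEquiv.symm⟩) (pgroup_top p H) (up B)
    (up_block hB) (up_inv B)
  rw [thetaSum_top red H B hB, numIBr_eq] at h1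
  exact h1

theorem pairs_of_bawc (X : ∀ (H : Type) [Group H], Prop) (hX : Closed p X)
    (h : ForReduced p red X (fun _ x y => x = y)) :
    ForPairs p red X (fun _ x y => x = y) := by
  have h1 : ∀ (H : Type) [Group H] [Finite H], X H → Reduced p H →
      NavarroTheta p red (⊤ : Subgroup H) := by
    intro H _ _ hH hR
    rw [theta_iff, ← bawc_iff]
    exact h H hH hR
  intro Γ _ _ N G _ _ hNG hN hp B hB hI
  exact (block_strong red X hX).1 h1 Γ N G hNG hN hp B hB hI

end

/-- **Navarro's conjecture for odd primes: parity or size decides.** Let `p` be an odd prime and let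
`X` be a class of groups closed under isomorphisms, subgroups, quotients by normal `p`-subgroups and
wreath products with `C₂`. The following are equivalent:
(1) Navarro's equality for all pairs and blocks as in `ForPairs`;
(2) the two sides of Navarro's equality have the same parity for all these pairs and blocks;
(3) for every `ε > 0` there is a `K` such that each side is at most `K |Γ|_p ^ ε` times the other side
for all these pairs and blocks;
(4) `l(B)` and `w(B)` have the same parity for all blocks as in `ForReduced`;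
(5) for every `ε > 0` there is a `K` such that `l(B)` and `w(B)` agree up to the factor `K |H|_p ^ ε`
for all blocks as in `ForReduced`. -/
theorem result (p : ℕ) [Fact p.Prime] (hp2 : p ≠ 2) (F : Type) [Field F] [IsAlgClosed F]
    [CharP F p] (red : integralClosure ℤ ℂ →+* F) (X : ∀ (H : Type) [Group H], Prop)
    (hX : Closed p X) (hW : ∀ (H : Type) [Group H] [Finite H], X H → X (Wr H)) :
    [ForPairs p red X (fun _ x y => x = y),
      ForPairs p red X (fun _ x y => x ≡ y [MOD 2]),
      ∀ ε : ℝ, 0 < ε → ∃ K : ℝ, ForPairs p red X (Near K ε),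
      ForReduced p red X (fun _ x y => x ≡ y [MOD 2]),
      ∀ ε : ℝ, 0 < ε → ∃ K : ℝ, ForReduced p red X (Near K ε)].TFAE := by
  have hC : ∀ (G : Type) [i : Group G] [Finite G],
      (fun (G : Type) (i : Group G) => Finite G ∧ @X G i ∧ @Reduced p G i) G i →
      (fun (G : Type) (i : Group G) => Finite G ∧ @X G i ∧ @Reduced p G i) (Wr G)
        inferInstance := fun G _ _ hG =>
    ⟨inferInstance, hW G hG.2.1, Pool.Agent.Q149.WB.reduced_wr hp2 hG.2.2⟩
  tfae_have 1 → 2 := by
    intro h Γ _ _ N G _ _ h1 h2 h3 B hB hI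
    change numIBr G B ≡ thetaSum p red G B [MOD 2]
    rw [h Γ N G h1 h2 h3 B hB hI]
  tfae_have 1 → 3 := by
    intro h ε hε
    refine ⟨1, fun Γ _ _ N G _ _ h1 h2 h3 B hB hI => ?_⟩
    rw [h Γ N G h1 h2 h3 B hB hI]
    exact near_self (Fact.out : p.Prime) hε Γ _
  tfae_have 2 → 4 := reduced_of_pairs red X hX
  tfae_have 3 → 5 := by
    intro h ε hε
    obtain ⟨K, hK⟩ := h ε hε
    exact ⟨K, reduced_of_pairs red X hX hK⟩
  tfae_have 4 → 1 := by
    intro h
    refine pairs_of_bawc red X hX fun H _ _ hH hR => ?_
    exact Pool.Agent.Q149.WB.bawc_of_parity red hp2 H fun j _ => by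
      obtain ⟨-, h2, h3⟩ := Pool.Agent.Q149.WB.closed_WrN _ hC j H ⟨inferInstance, hH, hR⟩
      exact h (WrN j H) h2 h3
  tfae_have 5 → 1 := by
    intro h
    refine pairs_of_bawc red X hX fun H _ _ hH hR B hB => ?_
    apply le_antisymm
    · refine Pool.Agent.Q149.WB.irr_le_one red hp2 H (fun ε hε => ?_) B hB
      obtain ⟨K, hK⟩ := h ε hε
      refine ⟨K, fun j B hB => ?_⟩
      obtain ⟨-, h2, h3⟩ := Pool.Agent.Q149.WB.closed_WrN _ hC j H ⟨inferInstance, hH, hR⟩
      exact (hK (WrN j H) h2 h3 B hB).1
    · refine Pool.Agent.Q149.WB.wts_le_one red hp2 H (fun ε hε => ?_) B hB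
      obtain ⟨K, hK⟩ := h ε hε
      refine ⟨K, fun j B hB => ?_⟩
      obtain ⟨-, h2, h3⟩ := Pool.Agent.Q149.WB.closed_WrN _ hC j H ⟨inferInstance, hH, hR⟩
      exact (hK (WrN j H) h2 h3 B hB).2
  tfae_finish

end Pool.Agent.Results.MP_0c8ca5_al.ParityDecides
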