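import Pool.Agent.Q288.AP.Nav

/-!
# Navarro's conjecture for `p`-group extensions, summed over the blocks: parity or size decides

Let `p` be odd. Navarro's equality, summed over the blocks of `G`, is `a(G, Γ) = b(G, Γ)`, where
`a(G, Γ)` is the number of `Γ`-invariant irreducible Brauer characters of `G` and `b(G, Γ)` is the
number of characters of defect zero of the groups `N_Γ(Q)/Q`, `Q` running over the classes of
`p`-subgroups with `GQ = Γ`. It holds for all `p`-extensions `Γ` of all finite groups `G` if and only
if it holds modulo two, and if and only if it holds up to a factor `C_ε |Γ|_p^ε` for every `ε > 0`.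
-/

set_option autoImplicit false

namespace Pool.Agent.Results.MP_0c8ca5_al.ParityOrSizeDecides

open Pool.Agent.Y63.NV (numInvIrr)
open Pool.Agent.Q288.AP

/-- `G` is a normal subgroup of the finite group `Γ` and `Γ/G` is a `p`-group; the property `R` holds
for the two sides of Navarro's equality (summed over the blocks of `G`) and the `p`-part of `|Γ|`, for
all such pairs. -/
def AllPairs (p : ℕ) (F : Type) [Field F] (R : ℕ → ℕ → ℕ → Prop) : Prop :=
  ∀ (Γ : Type) [Group Γ] [Finite Γ] (G : Subgroup Γ) [G.Normal], IsPGroup p (Γ ⧸ G) →
    R (pPart p Γ) (numInvIrr F G) (weightsOver p G)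

/-- Let `p` be an odd prime and `F` an algebraically closed field of characteristic `p`. Navarro's
equality, summed over the blocks of `G`, holds for all pairs `(G, Γ)` if and only if the two sides
have the same parity for all pairs, and if and only if for every `ε > 0` there is a `C` such that
each side is at most `C |Γ|_p^ε` times the other side for all pairs. -/
theorem result (p : ℕ) [Fact p.Prime] (hp2 : p ≠ 2) (F : Type) [Field F] [IsAlgClosed F]
    [CharP F p] :
    (AllPairs p F (fun _ a b => a = b) ↔ AllPairs p F (fun _ a b => a ≡ b [MOD 2])) ∧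
    (AllPairs p F (fun _ a b => a = b) ↔
      ∀ ε : ℝ, 0 < ε → ∃ C : ℝ, AllPairs p F (fun s a b => (a : ℝ) ≤ C * (s : ℝ) ^ ε * b ∧
        (b : ℝ) ≤ C * (s : ℝ) ^ ε * a)) :=
  ⟨navarro_parity p F hp2, navarro_approx p F hp2⟩

end Pool.Agent.Results.MP_0c8ca5_al.ParityOrSizeDecides
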