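import Pool.Agent.Q149.DB.Nav3
import Pool.Agent.Q149.WB.Red

/-!
# Navarro's blockwise conjecture for odd primes: the parities of the real blocks decide

Let `p` be odd. Navarro's equality holds for all invariant blocks of all pairs `G ⊴ Γ`, `Γ/G` a
`p`-group, if and only if for every REAL block `B` of every finite group `H` without normal subgroups
of index `p` and without nontrivial normal `p`-subgroups the number of the self-dual simple modules
in `B` and the number of the real weights of `B` have the same parity. Nothing is assumed about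
nonreal blocks, nonreal characters or proper extensions.

Proof. For `z` in the centre of `F[G]` let `l(z)` be the number of the simple modules on which `z` does
not act as zero and `w(z)` the number of the weights whose blocks do not vanish at `z`. For the element
`z ⊗ z` for `G ≀ C₂` one has `2 l(z ⊗ z) = l(z) ^ 2 + 3 l(z)`, and the same for `w`. If `z` is invariant
under `g ↦ g⁻¹`, then duality shows that `l(z)` and `w(z)` are congruent modulo 2 to the numbers of
self-dual modules and real weights, which lie in real blocks. So if these agree modulo 2 for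
all iterated wreath products, then `l(z) - w(z)` is divisible by all powers of 2. For every block `B`
there is such a `z` for which `l(z), w(z)` are the numbers for `B` or their doubles.
-/

set_option autoImplicit false

open scoped Classical

namespace Pool.Agent.Results.MP_0c8ca5_al.RealBlocksDecide

open Pool.Agent.Y63.NV
open Pool.Agent.Y63.NV.B48B (rs)
open Pool.Agent.Y63.AWC (pSubgroupSetoid)
open Pool.Agent.Q90.WR (Wr WrN instGroupWrN)
open Pool.Agent.Q149.DB (RealBlock sqN lz lb wgz wgb wgz1 wgb1 LR WR LT WT bl)

/-- The right side of Navarro's equality for the block `B` of `G`: the sum over the `Γ`-classes of the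
set `Θ_B` of the `p`-subgroups `Q` of `Γ` with `G Q = Γ` such that `Q ∩ G` is contained in a defect
group of `B`, of the number of `p`-defect zero characters of `N_Γ(Q)/Q` over `B`. -/
noncomputable def thetaSum (p : ℕ) {F : Type} [Field F] (red : integralClosure ℤ ℂ →+* F) {Γ : Type}
    [Group Γ] (G : Subgroup Γ) (B : (G → F) → F) : ℕ :=
  ∑ᶠ c : Quotient (pSubgroupSetoid p Γ),
    if G ⊔ c.out.1 = ⊤ ∧ InDefect p G B c.out.1 then numDz p red G c.out.1 B else 0

/-- Navarro's equality holds for all `Γ`-invariant blocks `B` of all normal subgroups `G` of finite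
groups `Γ` such that `G` contains a normal subgroup `N` of `Γ` in the class `X` for which `Γ/N` is a
`p`-group. -/
def Navarro (p : ℕ) {F : Type} [Field F] (red : integralClosure ℤ ℂ →+* F)
    (X : ∀ (H : Type) [Group H], Prop) : Prop :=
  ∀ (Γ : Type) [Group Γ] [Finite Γ] (N G : Subgroup Γ) [N.Normal] [G.Normal], N ≤ G → X N →
    IsPGroup p (Γ ⧸ N) → ∀ B : (G → F) → F, IsBlock B → IsInvBlock G B →
      numIBr G B = thetaSum p red G B

/-- The number of the self-dual simple `F[H]`-modules in the block `B`. -/
noncomputable def realSimples {F : Type} [Field F] {H : Type} [Group H] (B : (H → F) → F) : ℕ :=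
  Nat.card {φ : H → F // IsIrrTrace φ ∧ (∀ g, φ g⁻¹ = φ g) ∧
    ∀ f : H → F, IsClassFun f → ∀ x : H, ∑ᶠ g : H, f g * φ (g * x) = B f * φ x}

/-- The number of the real-valued irreducible characters of `N_H(Q)/Q` of `p`-defect zero which
induce to the block `B`. -/
noncomputable def realWeights1 (p : ℕ) {F : Type} [Field F] (red : integralClosure ℤ ℂ →+* F)
    {H : Type} [Group H] (Q : Subgroup H) (B : (H → F) → F) : ℕ :=
  Nat.card {χ : Subgroup.normalizer (Q : Set H) → ℂ //
    IsWt p (Q.subgroupOf (Subgroup.normalizer (Q : Set H))) χ ∧ (∀ g, (χ g).im = 0) ∧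
    ∀ f : H → F, IsClassFun f → centralValue red χ (fun x => f x) = B f}

/-- The number of the classes of real weights of the block `B`. -/
noncomputable def realWeights (p : ℕ) {F : Type} [Field F] (red : integralClosure ℤ ℂ →+* F)
    {H : Type} [Group H] (B : (H → F) → F) : ℕ :=
  ∑ᶠ c : Quotient (pSubgroupSetoid p H), realWeights1 p red c.out.1 B

/-- For all real blocks of `H` the numbers of self-dual simple modules and of real weights have the
same parity. -/
def RealParity (p : ℕ) {F : Type} [Field F] (red : integralClosure ℤ ℂ →+* F) (H : Type) [Group H] :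
    Prop :=
  ∀ B : (H → F) → F, IsBlock B → RealBlock B → realSimples B ≡ realWeights p red B [MOD 2]

/-- The number of the simple `F[G]`-modules on which the central element `z` does not act as zero. -/
noncomputable def simplesAt {F : Type} [Field F] {G : Type} [Group G] (z : G → F) : ℕ :=
  Nat.card {φ : G → F // IsIrrTrace φ ∧ ∃ x, ∑ᶠ g : G, z g * φ (g * x) ≠ 0}

/-- The number of the self-dual ones. -/
noncomputable def realSimplesAt {F : Type} [Field F] {G : Type} [Group G] (z : G → F) : ℕ :=
  Nat.card {φ : G → F // IsIrrTrace φ ∧ (∀ g, φ g⁻¹ = φ g) ∧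
    ∃ x, ∑ᶠ g : G, z g * φ (g * x) ≠ 0}

/-- The number of the classes of weights with nonvanishing central value at `z`. -/
noncomputable def weightsAt (p : ℕ) {F : Type} [Field F] (red : integralClosure ℤ ℂ →+* F)
    {G : Type} [Group G] (z : G → F) : ℕ :=
  ∑ᶠ c : Quotient (pSubgroupSetoid p G),
    Nat.card {χ : Subgroup.normalizer (c.out.1 : Set G) → ℂ //
      IsWt p (c.out.1.subgroupOf (Subgroup.normalizer (c.out.1 : Set G))) χ ∧
      centralValue red χ (fun x => z x) ≠ 0}

/-- The number of the real ones. -/
noncomputable def realWeightsAt (p : ℕ) {F : Type} [Field F] (red : integralClosure ℤ ℂ →+* F)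
    {G : Type} [Group G] (z : G → F) : ℕ :=
  ∑ᶠ c : Quotient (pSubgroupSetoid p G),
    Nat.card {χ : Subgroup.normalizer (c.out.1 : Set G) → ℂ //
      IsWt p (c.out.1.subgroupOf (Subgroup.normalizer (c.out.1 : Set G))) χ ∧
      (∀ g, (χ g).im = 0) ∧ centralValue red χ (fun x => z x) ≠ 0}

section bridge

variable {p : ℕ} {F : Type} [Field F] (red : integralClosure ℤ ℂ →+* F)

theorem simples_eq {H : Type} [Group H] (B : (H → F) → F) : realSimples B = lb LR (rs B) :=
  Nat.card_congr (Equiv.subtypeEquivRight fun φ => and_congr_right fun _ => and_congr_right fun _ =>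
    ⟨fun h f x => h f.1 f.2 x, fun h f hf x => h ⟨f, hf⟩ x⟩)

theorem weights_eq {H : Type} [Group H] (B : (H → F) → F) :
    realWeights p red B = wgb red p WR (rs B) :=
  finsum_congr fun c => Nat.card_congr (Equiv.subtypeEquivRight fun χ =>
    and_congr_right fun _ => and_congr_right fun _ =>
      ⟨fun h => funext fun f => h f.1 f.2, fun h f hf => congrFun h ⟨f, hf⟩⟩)

theorem parity_iff {H : Type} [Group H] : RealParity p red H ↔
    ∀ B : (H → F) → F, IsBlock B → RealBlock B → lb LR (rs B) ≡ wgb red p WR (rs B) [MOD 2] := by
  unfold RealParity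
  refine forall_congr' fun B => ?_
  rw [simples_eq, weights_eq]

end bridge

section

variable {p : ℕ} [hp : Fact p.Prime] {F : Type} [Field F] [IsAlgClosed F] [CharP F p]
  (red : integralClosure ℤ ℂ →+* F)

theorem thetaSum_top (H : Type) [Group H] [Finite H] (B : (H → F) → F) (hB : IsBlock B) :
    thetaSum p red (⊤ : Subgroup H) (up B) =
      ∑ᶠ c : Quotient (pSubgroupSetoid p H), numWtBlock p red c.out.1 B := by
  refine finsum_congr fun c => ?_
  have h0 : numDz p red (⊤ : Subgroup H) c.out.1 (up B) = numWtBlock p red c.out.1 B :=
    numDz_eq p red c.out.1 (up B)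
  by_cases h2 : InDefect p (⊤ : Subgroup H) (up B) c.out.1
  · rw [if_pos ⟨top_sup_eq _, h2⟩, h0]
  · rw [if_neg (fun h => h2 h.2), ← h0]
    by_contra h3
    exact h2 (wdef' p F red H ⊤ (up B) (up_block hB) (up_inv B) c.out.1 c.out.2
      (fun h => h3 h.symm))

theorem bawc_of_navarro (X : ∀ (H : Type) [Group H], Prop) (hX : Closed p X)
    (h : Navarro p red X) (H : Type) [Group H] [Finite H] (hH : X H) : BAWC p red H := by
  intro B hB
  have h1 := h H ⊤ ⊤ le_rfl (hX.iso _ _ hH ⟨Subgroup.topEquiv.symm⟩) (pgroup_top p H) (up B)
    (up_block hB) (up_inv B)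
  rw [thetaSum_top red H B hB, numIBr_eq] at h1
  exact h1

theorem navarro_of_bawc (X : ∀ (H : Type) [Group H], Prop) (hX : Closed p X)
    (h : ∀ (H : Type) [Group H] [Finite H], X H → Reduced p H → BAWC p red H) :
    Navarro p red X := by
  have h1 : ∀ (H : Type) [Group H] [Finite H], X H → Reduced p H →
      NavarroTheta p red (⊤ : Subgroup H) := by
    intro H _ _ hH hR
    rw [theta_iff, ← bawc_iff]
    exact h H hH hR
  intro Γ _ _ N G _ _ hNG hN hp B hB hI
  exact (block_strong red X hX).1 h1 Γ N G hNG hN hp B hB hI

end

/-- **Navarro's conjecture for odd primes: the parities of the real blocks decide.** Let `p` be an odd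
prime.
(1) Let `X` be a class of groups closed under isomorphisms, subgroups, quotients by normal
`p`-subgroups and wreath products with `C₂`. Navarro's equality holds for all pairs and blocks as in
`Navarro` if and only if for all real blocks of all finite groups `H` in `X` without normal
subgroups of index `p` and without nontrivial normal `p`-subgroups the numbers of self-dual simple
modules and of real weights have the same parity.
(2) For one finite group `G`: the case `Γ = G` of Navarro's equality (`BAWC`) holds for all blocks of
`G` if the numbers of self-dual simple modules and of real weights have the same parity for all real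
blocks of the iterated wreath products `WrN j G` with `2 ^ j ≤ |G| c`, `c` the number of
`p`-subgroups of `G`.
(3) For one finite group `G` and one `z` in the centre of `F[G]` invariant under `g ↦ g⁻¹`: the numbers
of simple modules and of weights not vanishing at `z` are equal if and only if for all `j` the
numbers of self-dual simple modules and of real weights not vanishing at `z_j` have the same parity,
where `z_0 = z` and `z_{j+1} = z_j ⊗ z_j`. -/
theorem result (p : ℕ) [Fact p.Prime] (hp2 : p ≠ 2) (F : Type) [Field F] [IsAlgClosed F]
    [CharP F p] (red : integralClosure ℤ ℂ →+* F) :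
    (∀ X : ∀ (H : Type) [Group H], Prop, Closed p X →
      (∀ (H : Type) [Group H] [Finite H], X H → X (Wr H)) →
      (Navarro p red X ↔
        ∀ (H : Type) [Group H] [Finite H], X H → Reduced p H → RealParity p red H)) ∧
    (∀ (G : Type) [Group G] [Finite G],
      (∀ j : ℕ, 2 ^ j ≤ Nat.card G * Nat.card {Q : Subgroup G // IsPGroup p Q} →
        RealParity p red (WrN j G)) → BAWC p red G) ∧
    (∀ (G : Type) [Group G] [Finite G] (z : G → F), IsClassFun z → (∀ g, z g⁻¹ = z g) →
      (simplesAt z = weightsAt p red z ↔
        ∀ j : ℕ, realSimplesAt (sqN j z) ≡ realWeightsAt p red (sqN j z) [MOD 2])) := by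
  refine ⟨fun X hX hW => ?_, fun G _ _ h => ?_, fun G _ _ z hz hr => ?_⟩
  · have hC : ∀ (G : Type) [i : Group G] [Finite G],
        (fun (G : Type) (i : Group G) => Finite G ∧ @X G i ∧ @Reduced p G i) G i →
        (fun (G : Type) (i : Group G) => Finite G ∧ @X G i ∧ @Reduced p G i) (Wr G)
          inferInstance := fun G _ _ hG =>
      ⟨inferInstance, hW G hG.2.1, Pool.Agent.Q149.WB.reduced_wr hp2 hG.2.2⟩
    constructor
    · intro h H _ _ hH _
      rw [parity_iff]
      exact fun B hB hr => Pool.Agent.Q149.DB.real_of_bawc red
        (bawc_of_navarro red X hX h H hH) hB hr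
    · intro h
      refine navarro_of_bawc red X hX fun H _ _ hH hR => ?_
      refine Pool.Agent.Q149.DB.bawc_of_real red hp2 H fun j _ => ?_
      obtain ⟨-, h2, h3⟩ := Pool.Agent.Q149.WB.closed_WrN _ hC j H ⟨inferInstance, hH, hR⟩
      exact (parity_iff red).1 (h (WrN j H) h2 h3)
  · exact Pool.Agent.Q149.DB.bawc_of_real red hp2 G fun j hj => (parity_iff red).1 (h j hj)
  · exact Pool.Agent.Q149.DB.nav_iff red hp2 hz (funext hr)

end Pool.Agent.Results.MP_0c8ca5_al.RealBlocksDecide
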